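import Pool.Agent.Helper28_TP.StS

/-!
# Module SEED of squad TPM: seeds are attached with high probability
-/

set_option autoImplicit false

namespace Pool.Agent.TP.H63

open Pool.Agent.TP

/-- SEED -/
theorem seed (hAnn : AnnStmt) (hMany : ManyStmt) (hOrth : OrthStmt) (hAts : AtsStmt)
    (hSym : SymStmt) : SeedStmt := by
  intro k N ρ p θ hN hp0 hp1 hθ hperc η hη m₁
  obtain ⟨η', hη', horth⟩ := hOrth k N ρ p hN hp0 hp1 (η / 2) (half_pos hη)
  obtain ⟨m₀, hann⟩ := hAnn k N ρ p θ hN hp0 hp1 hθ hperc (η' / 2) (half_pos hη')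
  let m : ℕ := max m₁ (max m₀ ρ)
  have hm₁ : m₁ ≤ m := le_max_left _ _
  have hm₀ : m₀ ≤ m := (le_max_left _ _).trans (le_max_right _ _)
  have hmρ : ρ ≤ m := (le_max_right _ _).trans (le_max_right _ _)
  obtain ⟨M₀, hats⟩ := hAts k N ρ p hN hp0 hp1 (η / 2) m (half_pos hη) hmρ
  obtain ⟨n, hn, hmany⟩ := hMany k N ρ p hN hp0 hp1 m (η' / 2) (hann m hm₀)
    ((k + 2) * 2 ^ (k + 2) * M₀) (η' / 2) (half_pos hη') (4 * m + 4)
  have h1 : 1 - η' ≤ PS (bx (0 : Pt k) n) (fun _ => p)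
      (fun A => (k + 2) * 2 ^ (k + 2) * M₀ ≤ cnt N m (lay k n ρ) A) := by
    refine le_trans (le_of_eq ?_) hmany
    ring
  have h2 := horth n m M₀ (by omega) h1
  have h3 := hats n hn
  refine ⟨m, n, hm₁, hn, fun b a σ hσ => ?_⟩
  rw [hSym k N ρ p hN m n b a σ hσ]
  linarith

end Pool.Agent.TP.H63
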